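import Pool.Agent.Lib.MP_46a7d5_co.Harmonic

/-!
An explicit upper bound for the normalised choice number: `c(m) ≤ 1/2 + 1/3 + ... + 1/m` for all
`m ≥ 11`.
-/

set_option autoImplicit false

namespace Pool.Agent.Results.MP_46a7d5_co.HarmonicBound

open Pool.Agent.Lib.MP_46a7d5_co

/-- For `m ≥ 11`, the limit `c(m)` of `ch(K_{m*k}) / k` exists and is at most
`1/2 + 1/3 + ... + 1/m`. -/
theorem result (m : ℕ) (hm : 11 ≤ m) :
    ∃ c : ℝ, Filter.Tendsto (fun k : ℕ => (choiceNumber (balancedMultipartite m k) : ℝ) / k)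
      Filter.atTop (nhds c) ∧ c ≤ ∑ i ∈ Finset.Icc 2 m, (1 : ℝ) / i := by
  refine ⟨setCoverGap m, tendsto_choiceNumber (by omega), ?_⟩
  refine (setCoverGap_le_harmonic hm).trans (le_of_eq ?_)
  have h : ∀ n : ℕ, 1 ≤ n → (harmonic n : ℝ) - 1 = ∑ i ∈ Finset.Icc 2 n, (1 : ℝ) / i := by
    intro n hn
    induction n, hn using Nat.le_induction with
    | base => simp [harmonic]
    | succ n hn ih =>
      rw [Finset.sum_Icc_succ_top (by omega), ← ih, harmonic_succ]
      push_cast
      ring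
  exact h m (by omega)

end Pool.Agent.Results.MP_46a7d5_co.HarmonicBound
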