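import Pool.Agent.Lib.MP_46a7d5_co.LowerAsymp

/-!
Two-sided bounds for the normalised choice number `c(m)`:
`log m - 2 log log m - log log log m - 5 ≤ c(m) ≤ log m - log log m + 40` for all `m ≥ 16`.
-/

set_option autoImplicit false

namespace Pool.Agent.Results.MP_46a7d5_co.SecondOrder

open Pool.Agent.Lib.MP_46a7d5_co

/-- For `m ≥ 16`, the limit `c(m)` of `ch(K_{m*k}) / k` exists and satisfies
`log m - 2 log log m - log log log m - 5 ≤ c(m) ≤ log m - log log m + 40`. -/
theorem result (m : ℕ) (hm : 16 ≤ m) :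
    ∃ c : ℝ, Filter.Tendsto (fun k : ℕ => (choiceNumber (balancedMultipartite m k) : ℝ) / k)
      Filter.atTop (nhds c) ∧
      Real.log m - 2 * Real.log (Real.log m) - Real.log (Real.log (Real.log m)) - 5 ≤ c ∧
      c ≤ Real.log m - Real.log (Real.log m) + 40 :=
  ⟨setCoverGap m, tendsto_choiceNumber (by omega), log_le_setCoverGap hm,
    setCoverGap_le_log (by omega)⟩

end Pool.Agent.Results.MP_46a7d5_co.SecondOrder
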