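import Pool.Agent.Lib.MP_46a7d5_co.Main

/-!
The normalised choice number `c(m)` of the balanced complete multipartite graphs `K_{m*k}` is the
worst-case integrality gap of weighted set cover on `m` elements.
-/

set_option autoImplicit false

namespace Pool.Agent.Results.MP_46a7d5_co.SetCoverGap

open Pool.Agent.Lib.MP_46a7d5_co

/-- For every `m ≥ 1`, the numbers `ch(K_{m*k}) / k` tend to the integrality gap of weighted set
cover on `m` elements. -/
theorem result (m : ℕ) (hm : 1 ≤ m) :
    Filter.Tendsto (fun k : ℕ => (choiceNumber (balancedMultipartite m k) : ℝ) / k) Filter.atTop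
      (nhds (setCoverGap m)) :=
  tendsto_choiceNumber hm

end Pool.Agent.Results.MP_46a7d5_co.SetCoverGap
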