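import Pool.Agent.Lib.MP_46a7d5_co.Values

/-!
The exact values `c(m) = 2 - 2 / m` for `2 ≤ m ≤ 6`; the cases `m = 5` and `m = 6` are new.
-/

set_option autoImplicit false

namespace Pool.Agent.Results.MP_46a7d5_co.SmallParts

open Pool.Agent.Lib.MP_46a7d5_co

/-- For `2 ≤ m ≤ 6`, the numbers `ch(K_{m*k}) / k` tend to `2 - 2 / m`. -/
theorem result (m : ℕ) (hm2 : 2 ≤ m) (hm6 : m ≤ 6) :
    Filter.Tendsto (fun k : ℕ => (choiceNumber (balancedMultipartite m k) : ℝ) / k) Filter.atTop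
      (nhds (2 - 2 / (m : ℝ))) := by
  rw [← setCoverGap_le_six hm2 hm6]
  exact tendsto_choiceNumber (by omega)

end Pool.Agent.Results.MP_46a7d5_co.SmallParts
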